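import Mathlib

set_option autoImplicit false

namespace Pool.Agent.H170Z.Gen

/-- an injective module with a prescribed essential simple submodule -/
theorem exists_hull {E M : Type} [Ring E] [AddCommGroup M] [Module E M] {x : M} (hx : x ≠ 0)
    (hs : ∀ e : E, e • x ≠ 0 → ∃ c : E, c • e • x = x) :
    ∃ (I : Type) (_ : AddCommGroup I) (_ : Module E I), Module.Injective E I ∧
      ∃ (s : I) (h0 : M →ₗ[E] I), h0 x = s ∧ (∀ y : I, y ≠ 0 → ∃ e : E, e • y = s) ∧
        ∀ e : E, e • s = 0 ↔ e • x = 0 := by
  classical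
  obtain ⟨⟨Q, hQ, f, hf⟩⟩ := CategoryTheory.EnoughInjectives.presentation (ModuleCat.of E M)
  have hQ' : Module.Injective E Q := by
    have : CategoryTheory.Injective (ModuleCat.of E Q) := hQ
    exact Module.injective_module_of_injective_object E Q
  have hfi : Function.Injective f.hom := (ModuleCat.mono_iff_injective f).mp hf
  let j : M →ₗ[E] Q := f.hom
  have hj : Function.Injective j := hfi
  have hann : ∀ e : E, e • j x = 0 ↔ e • x = 0 := by
    intro e
    rw [← map_smul, map_eq_zero_iff j hj]
  have hs0 : j x ≠ 0 := fun h => hx ((map_eq_zero_iff j hj).1 h)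
  -- first maximal submodule
  obtain ⟨K, -, hK⟩ := zorn_le_nonempty₀ {K : Submodule E Q | j x ∉ K} (by
    intro c hc hch y hy
    refine ⟨sSup c, ?_, fun z hz => le_sSup hz⟩
    intro hmem
    rw [Submodule.mem_sSup_of_directed ⟨y, hy⟩ hch.directedOn] at hmem
    obtain ⟨p, hp, hp'⟩ := hmem
    exact hc hp hp') ⊥ (by simpa using hs0)
  have hKess : ∀ y : Q ⧸ K, y ≠ 0 → ∃ e : E, e • y = K.mkQ (j x) := by
    intro y hy
    obtain ⟨z, rfl⟩ := K.mkQ_surjective y
    have hz : z ∉ K := fun h => hy (by simpa using h)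
    have hmem : j x ∈ K ⊔ Submodule.span E {z} := by
      by_contra hc
      have := hK.le_of_ge (y := K ⊔ Submodule.span E {z}) hc le_sup_left
      exact hz (this (Submodule.mem_sup_right (Submodule.mem_span_singleton_self z)))
    obtain ⟨k, hk, w, hw, hkw⟩ := Submodule.mem_sup.1 hmem
    obtain ⟨e, rfl⟩ := Submodule.mem_span_singleton.1 hw
    refine ⟨e, ?_⟩
    rw [← hkw, map_add, map_smul]
    have : K.mkQ k = 0 := by simpa using hk
    rw [this, zero_add]
  -- second maximal submodule
  obtain ⟨N, -, hN⟩ := zorn_le_nonempty₀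
    {N : Submodule E Q | j x ∈ N ∧ ∀ y ∈ N, y ≠ 0 → ∃ e : E, e • y = j x} (by
    intro c hc hch y hy
    refine ⟨sSup c, ⟨?_, ?_⟩, fun z hz => le_sSup hz⟩
    · exact (le_sSup hy : y ≤ sSup c) (hc hy).1
    · intro z hz hz0
      rw [Submodule.mem_sSup_of_directed ⟨y, hy⟩ hch.directedOn] at hz
      obtain ⟨p, hp, hp'⟩ := hz
      exact (hc hp).2 z hp' hz0) (Submodule.span E {j x}) (by
    refine ⟨Submodule.mem_span_singleton_self _, ?_⟩
    intro y hy hy0
    obtain ⟨e, rfl⟩ := Submodule.mem_span_singleton.1 hy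
    obtain ⟨c, hc⟩ := hs e (fun h => hy0 ((hann e).2 h))
    exact ⟨c, by rw [← map_smul, ← map_smul, hc]⟩)
  obtain ⟨hN1, hN2⟩ := hN.prop
  have hinj : Function.Injective (K.mkQ ∘ₗ N.subtype) := by
    rw [← LinearMap.ker_eq_bot, Submodule.eq_bot_iff]
    intro y hy
    by_contra hy0
    obtain ⟨e, he⟩ := hN2 y.1 y.2 (fun h => hy0 (Subtype.ext h))
    have h1 : y.1 ∈ K := by simpa using hy
    exact hK.prop (he ▸ K.smul_mem e h1)
  obtain ⟨g, hg⟩ := hQ'.out (K.mkQ ∘ₗ N.subtype) hinj N.subtype
  have hgs : g (K.mkQ (j x)) = j x := hg ⟨j x, hN1⟩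
  have hrange : LinearMap.range g ≤ N := by
    apply hN.le_of_ge
    · refine ⟨⟨_, hgs⟩, ?_⟩
      rintro _ ⟨y, rfl⟩ hy0
      obtain ⟨e, he⟩ := hKess y (fun h => hy0 (by rw [h, map_zero]))
      exact ⟨e, by rw [← map_smul, he, hgs]⟩
    · intro y hy
      exact ⟨_, hg ⟨y, hy⟩⟩
  let r : Q →ₗ[E] N := LinearMap.codRestrict N (g ∘ₗ K.mkQ) (fun y => hrange ⟨_, rfl⟩)
  have hr : ∀ y : N, r y = y := fun y => Subtype.ext (hg y)
  refine ⟨N, inferInstance, inferInstance, ⟨?_⟩, ⟨j x, hN1⟩, r ∘ₗ j, hr ⟨j x, hN1⟩, ?_, ?_⟩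
  · intro X Y _ _ _ _ φ hφ ψ
    obtain ⟨h, hh⟩ := hQ'.out φ hφ (N.subtype ∘ₗ ψ)
    refine ⟨r ∘ₗ h, fun z => ?_⟩
    rw [LinearMap.comp_apply, hh z]
    exact hr (ψ z)
  · intro y hy
    obtain ⟨e, he⟩ := hN2 y.1 y.2 (fun h => hy (Subtype.ext h))
    exact ⟨e, Subtype.ext he⟩
  · intro e
    rw [← hann e, Subtype.ext_iff]
    rfl

/-- precomposition, as a map of modules over the endomorphism ring of the target -/
def precomp {E I X Y : Type} [Ring E] [AddCommGroup I] [Module E I] [AddCommGroup X] [Module E X]
    [AddCommGroup Y] [Module E Y] (φ : X →ₗ[E] Y) :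
    (Y →ₗ[E] I) →ₗ[Module.End E I] (X →ₗ[E] I) where
  toFun h := h ∘ₗ φ
  map_add' _ _ := rfl
  map_smul' _ _ := rfl

/-- the dual of a module of finite length has finite length -/
theorem dual_finite_length {E I : Type} [Ring E] [AddCommGroup I] [Module E I]
    (hI : Module.Injective E I) {M : Type} [AddCommGroup M] [Module E M]
    (hM : IsFiniteLength E M) :
    IsNoetherian (Module.End E I) (M →ₗ[E] I) ∧ IsArtinian (Module.End E I) (M →ₗ[E] I) := by
  induction hM with
  | of_subsingleton => exact ⟨inferInstance, inferInstance⟩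
  | @of_simple_quotient M _ _ N hsimp _ ih =>
    obtain ⟨ih1, ih2⟩ := ih
    have hall : ∀ U : Submodule (Module.End E I) ((M ⧸ N) →ₗ[E] I), U = ⊥ ∨ U = ⊤ := by
      intro U
      by_cases hU : U = ⊥
      · exact Or.inl hU
      · right
        obtain ⟨h, hh, hh0⟩ := Submodule.exists_mem_ne_zero_of_ne_bot hU
        have hinj : Function.Injective h := LinearMap.injective_of_ne_zero hh0
        rw [eq_top_iff]
        intro h' _
        obtain ⟨f, hf⟩ := hI.out h hinj h'
        have : h' = (f : Module.End E I) • h := LinearMap.ext fun z => (hf z).symm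
        rw [this]
        exact U.smul_mem _ hh
    have hfin : Finite (Submodule (Module.End E I) ((M ⧸ N) →ₗ[E] I)) := by
      apply Finite.of_surjective (fun b : Bool => if b then (⊥ : Submodule (Module.End E I)
        ((M ⧸ N) →ₗ[E] I)) else ⊤)
      intro U
      rcases hall U with h | h
      · exact ⟨true, h.symm⟩
      · exact ⟨false, h.symm⟩
    have h1 : IsNoetherian (Module.End E I) ((M ⧸ N) →ₗ[E] I) :=
      isNoetherian_mk inferInstance
    have h2 : IsArtinian (Module.End E I) ((M ⧸ N) →ₗ[E] I) :=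
      (inferInstance : WellFoundedLT _)
    have hex : LinearMap.range (precomp (I := I) N.mkQ) =
        LinearMap.ker (precomp (I := I) N.subtype) := by
      ext h
      constructor
      · rintro ⟨g, rfl⟩
        refine LinearMap.ext fun z => ?_
        show g (N.mkQ z.1) = 0
        have : N.mkQ z.1 = 0 := by simp
        rw [this, map_zero]
      · intro hh
        refine ⟨N.liftQ h ?_, N.liftQ_mkQ h _⟩
        intro z hz
        exact LinearMap.congr_fun hh ⟨z, hz⟩
    exact ⟨isNoetherian_of_range_eq_ker _ _ hex, isArtinian_of_range_eq_ker _ _ hex⟩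

/-- finiteness over the centre passes to quotients -/
theorem fin_centre_of_surj {B C : Type} [Ring B] [Ring C] (φ : B →+* C)
    (hφ : Function.Surjective φ) (h : Module.Finite (Subring.center B) B) :
    Module.Finite (Subring.center C) C := by
  classical
  obtain ⟨s, hs⟩ := h.fg_top
  refine ⟨s.image φ, ?_⟩
  rw [eq_top_iff]
  intro c _
  obtain ⟨b, rfl⟩ := hφ c
  have hb : b ∈ Submodule.span (Subring.center B) (s : Set B) := by rw [hs]; trivial
  induction hb using Submodule.span_induction with
  | mem y hy => exact Submodule.subset_span (by simpa using ⟨y, hy, rfl⟩)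
  | zero => rw [map_zero]; exact Submodule.zero_mem _
  | add y z _ _ h1 h2 => rw [map_add]; exact Submodule.add_mem _ (h1 trivial) (h2 trivial)
  | smul z y _ h1 =>
    have hz : φ z.1 ∈ Subring.center C := by
      rw [Subring.mem_center_iff]
      intro g
      obtain ⟨a, rfl⟩ := hφ g
      rw [← map_mul, ← map_mul, Subring.mem_center_iff.1 z.2 a]
    have : φ (z • y) = (⟨φ z.1, hz⟩ : Subring.center C) • φ y := map_mul φ z.1 y
    rw [this]
    exact Submodule.smul_mem _ _ (h1 trivial)

theorem fin_centre_of_op {C : Type} [Ring C] (h : Module.Finite (Subring.center Cᵐᵒᵖ) Cᵐᵒᵖ) :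
    Module.Finite (Subring.center C) C := by
  classical
  obtain ⟨s, hs⟩ := h.fg_top
  refine ⟨s.image MulOpposite.unop, ?_⟩
  rw [eq_top_iff]
  intro c _
  have key : ∀ b : Cᵐᵒᵖ, b ∈ Submodule.span (Subring.center Cᵐᵒᵖ) (s : Set Cᵐᵒᵖ) →
      b.unop ∈ Submodule.span (Subring.center C) ((s.image MulOpposite.unop : Finset C) : Set C) := by
    intro b hb
    induction hb using Submodule.span_induction with
    | mem y hy => exact Submodule.subset_span (by simpa using hy)
    | zero => exact Submodule.zero_mem _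
    | add y z _ _ h1 h2 => exact Submodule.add_mem _ h1 h2
    | smul z y _ h1 =>
      have hz : z.1.unop ∈ Subring.center C := by
        rw [Subring.mem_center_iff]
        intro g
        have := Subring.mem_center_iff.1 z.2 (MulOpposite.op g)
        exact (congrArg MulOpposite.unop this).symm
      have : (z • y).unop = (⟨z.1.unop, hz⟩ : Subring.center C) • y.unop :=
        Subring.mem_center_iff.1 hz y.unop
      rw [this]
      exact Submodule.smul_mem _ _ h1
  exact key (MulOpposite.op c) (by rw [hs]; trivial)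

/-- over a noetherian algebra the endomorphism ring of a finitely generated module is finite over
its centre -/
theorem fin_centre_end (k : Type) [CommRing k] [IsNoetherianRing k] (R : Type) [Ring R]
    [Algebra k R] [Module.Finite k R] (M : Type) [AddCommGroup M] [Module R M]
    [Module.Finite R M] :
    Module.Finite (Subring.center (Module.End R M)) (Module.End R M) := by
  classical
  letI : Module k M := Module.compHom M (algebraMap k R)
  have hsm : ∀ (c : k) (m : M), c • m = algebraMap k R c • m := fun _ _ => rfl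
  haveI : IsScalarTower k R M := ⟨fun c r m => by rw [hsm, Algebra.smul_def, mul_smul]⟩
  haveI : SMulCommClass R k M := ⟨fun r c m => by
    rw [hsm, hsm, ← mul_smul, ← mul_smul, Algebra.commutes]⟩
  haveI : SMulCommClass k R M := SMulCommClass.symm _ _ _
  haveI : Module.Finite k M := Module.Finite.trans R M
  obtain ⟨t, ht⟩ := (inferInstance : Module.Finite R M).fg_top
  let ev : Module.End R M →ₗ[k] (t → M) :=
    { toFun := fun f i => f i.1
      map_add' := fun _ _ => rfl
      map_smul' := fun _ _ => rfl }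
  have hev : Function.Injective ev := by
    intro f g hfg
    apply LinearMap.ext_on ht
    intro y hy
    exact congrFun hfg ⟨y, hy⟩
  have hfin : Module.Finite k (Module.End R M) := Module.Finite.of_injective ev hev
  obtain ⟨s, hs⟩ := hfin.fg_top
  refine ⟨s, ?_⟩
  rw [eq_top_iff]
  intro b _
  have hb : b ∈ Submodule.span k (s : Set (Module.End R M)) := by rw [hs]; trivial
  induction hb using Submodule.span_induction with
  | mem y hy => exact Submodule.subset_span hy
  | zero => exact Submodule.zero_mem _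
  | add y z _ _ h1 h2 => exact Submodule.add_mem _ (h1 trivial) (h2 trivial)
  | smul c y _ h1 =>
    have hz : c • (1 : Module.End R M) ∈ Subring.center (Module.End R M) := by
      rw [Subring.mem_center_iff]
      intro g
      ext m
      simp only [Module.End.mul_apply, LinearMap.smul_apply, Module.End.one_apply, hsm, map_smul]
    have : c • y = (⟨_, hz⟩ : Subring.center (Module.End R M)) • y := by
      ext m
      rfl
    rw [this]
    exact Submodule.smul_mem _ _ (h1 trivial)

end Pool.Agent.H170Z.Gen
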