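import Mathlib

set_option autoImplicit false

namespace Pool.Agent.H170Z.Gen

/-- Linear compactness of products of an artinian module: a directed family of cosets has a common
adherent point for the topology of pointwise agreement. -/
theorem lin_compact {E M X : Type} [Ring E] [AddCommGroup M] [Module E M] [IsArtinian E M]
    (𝓐 : Set ((X → M) × Submodule E (X → M))) (hne : 𝓐.Nonempty)
    (hdir : ∀ p ∈ 𝓐, ∀ q ∈ 𝓐, ∃ r ∈ 𝓐, r.2 ≤ p.2 ∧ r.2 ≤ q.2 ∧ r.1 - p.1 ∈ p.2 ∧ r.1 - q.1 ∈ q.2) :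
    ∃ f : X → M, ∀ p ∈ 𝓐, ∀ T : Finset X, ∃ b : X → M, b - p.1 ∈ p.2 ∧ ∀ t ∈ T, b t = f t := by
  classical
  let Q : Set (Set (X × M)) := {S | ∀ p ∈ 𝓐, ∀ T : Finset (X × M), (T : Set (X × M)) ⊆ S →
    ∃ b : X → M, b - p.1 ∈ p.2 ∧ ∀ t ∈ T, b t.1 = t.2}
  have hQ : ∀ c ⊆ Q, IsChain (· ⊆ ·) c → c.Nonempty → ∃ ub ∈ Q, ∀ s ∈ c, s ⊆ ub := by
    intro c hc hchain hcne
    refine ⟨⋃₀ c, ?_, fun s hs => Set.subset_sUnion_of_mem hs⟩
    intro p hp T hT
    have hdirc : DirectedOn (· ⊆ ·) c := hchain.directedOn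
    obtain ⟨s, hs, hTs⟩ := hdirc.exists_mem_subset_of_finset_subset_biUnion (f := id) hcne
      (s := T) (by simpa [Set.sUnion_eq_biUnion] using hT)
    exact hc hs p hp T hTs
  have h0 : (∅ : Set (X × M)) ∈ Q := by
    intro p _ T hT
    refine ⟨p.1, by simp, ?_⟩
    intro t ht
    exact absurd (hT ht) (by simp)
  obtain ⟨S, -, hS⟩ := zorn_subset_nonempty Q hQ ∅ h0
  have hall : ∀ x : X, ∃ m : M, (x, m) ∈ S := by
    intro x
    let V : Submodule E (X → M) → Finset (X × M) → Submodule E M := fun N T =>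
      (N ⊓ ⨅ t ∈ T, LinearMap.ker (LinearMap.proj (R := E) (φ := fun _ : X => M) t.1)).map
        (LinearMap.proj (R := E) (φ := fun _ : X => M) x)
    have hV : ∀ N T m, m ∈ V N T ↔ ∃ n ∈ N, (∀ t ∈ T, n t.1 = 0) ∧ n x = m := by
      intro N T m
      simp only [V, Submodule.mem_map, Submodule.mem_inf, Submodule.mem_iInf, LinearMap.mem_ker,
        LinearMap.proj_apply]
      constructor
      · rintro ⟨n, ⟨h1, h2⟩, h3⟩
        exact ⟨n, h1, h2, h3⟩
      · rintro ⟨n, h1, h2, h3⟩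
        exact ⟨n, ⟨h1, h2⟩, h3⟩
    let W : Set (Submodule E M) :=
      {U | ∃ p ∈ 𝓐, ∃ T : Finset (X × M), (T : Set (X × M)) ⊆ S ∧ U = V p.2 T}
    have hW : W.Nonempty := by
      obtain ⟨p, hp⟩ := hne
      exact ⟨V p.2 ∅, p, hp, ∅, by simp, rfl⟩
    obtain ⟨U, ⟨p0, hp0, T0, hT0, rfl⟩, hmin⟩ := IsArtinian.set_has_minimal W hW
    obtain ⟨b0, hb0, hb0T⟩ := hS.prop p0 hp0 T0 hT0
    refine ⟨b0 x, ?_⟩
    have hins : insert (x, b0 x) S ∈ Q := by
      intro p hp T hT
      obtain ⟨r, hr, h1, h2, h3, h4⟩ := hdir p hp p0 hp0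
      have hT' : ((T.erase (x, b0 x) ∪ T0 : Finset (X × M)) : Set (X × M)) ⊆ S := by
        intro t ht
        rw [Finset.mem_coe, Finset.mem_union, Finset.mem_erase] at ht
        rcases ht with ⟨h5, h6⟩ | h5
        · rcases hT h6 with h7 | h7
          · exact absurd h7 h5
          · exact h7
        · exact hT0 h5
      obtain ⟨b, hb, hbT⟩ := hS.prop r hr _ hT'
      have hle : V r.2 (T.erase (x, b0 x) ∪ T0) ≤ V p0.2 T0 := by
        intro m hm
        rw [hV] at hm ⊢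
        obtain ⟨n, n1, n2, n3⟩ := hm
        exact ⟨n, h2 n1, fun t ht => n2 t (Finset.mem_union_right _ ht), n3⟩
      have heq : V r.2 (T.erase (x, b0 x) ∪ T0) = V p0.2 T0 := by
        by_contra hc
        exact hmin _ ⟨r, hr, _, hT', rfl⟩ (lt_of_le_of_ne hle hc)
      have hmem : b x - b0 x ∈ V p0.2 T0 := by
        rw [hV]
        refine ⟨b - b0, ?_, ?_, rfl⟩
        · have : b - b0 = (b - r.1) + (r.1 - p0.1) - (b0 - p0.1) := by abel
          rw [this]
          exact p0.2.sub_mem (p0.2.add_mem (h2 hb) h4) hb0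
        · intro t ht
          rw [Pi.sub_apply, hbT t (Finset.mem_union_right _ ht), hb0T t ht, sub_self]
      rw [← heq, hV] at hmem
      obtain ⟨n, n1, n2, n3⟩ := hmem
      refine ⟨b - n, ?_, ?_⟩
      · have : b - n - p.1 = (b - r.1) - n + (r.1 - p.1) := by abel
        rw [this]
        exact p.2.add_mem (p.2.sub_mem (h1 hb) (h1 n1)) h3
      · intro t ht
        by_cases htx : t = (x, b0 x)
        · subst htx
          simp only [Pi.sub_apply]
          rw [n3]
          abel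
        · have h8 : t ∈ T.erase (x, b0 x) ∪ T0 :=
            Finset.mem_union_left _ (Finset.mem_erase.2 ⟨htx, ht⟩)
          rw [Pi.sub_apply, hbT t h8, n2 t h8, sub_zero]
    have := hS.eq_of_subset hins (Set.subset_insert _ _)
    rw [this]
    exact Set.mem_insert _ _
  choose f hf using hall
  refine ⟨f, ?_⟩
  intro p hp T
  obtain ⟨b, hb, hbT⟩ := hS.prop p hp (T.image fun t => (t, f t)) (by
    intro t ht
    rw [Finset.mem_coe, Finset.mem_image] at ht
    obtain ⟨y, -, rfl⟩ := ht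
    exact hf y)
  exact ⟨b, hb, fun t ht => hbT (t, f t) (Finset.mem_image_of_mem _ ht)⟩

variable {R G : Type} [Ring R] [AddCommGroup G] [Module R G]

/-- endomorphisms as functions -/
def toFn : Module.End R G →ₗ[Module.End R G] (G → G) where
  toFun f := fun g => f g
  map_add' _ _ := rfl
  map_smul' _ _ := rfl

@[simp] lemma toFn_apply (f : Module.End R G) (g : G) : toFn f g = f g := rfl

/-- Linear compactness of the endomorphism ring. -/
theorem lin_compact_end [IsArtinian (Module.End R G) G]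
    (𝓐 : Set (Module.End R G × Ideal (Module.End R G))) (hne : 𝓐.Nonempty)
    (hdir : ∀ p ∈ 𝓐, ∀ q ∈ 𝓐, ∃ r ∈ 𝓐, r.2 ≤ p.2 ∧ r.2 ≤ q.2 ∧ r.1 - p.1 ∈ p.2 ∧ r.1 - q.1 ∈ q.2) :
    ∃ f : Module.End R G, ∀ p ∈ 𝓐, ∀ T : Finset G,
      ∃ b : Module.End R G, b - p.1 ∈ p.2 ∧ ∀ t ∈ T, b t = f t := by
  classical
  obtain ⟨f, hf⟩ := lin_compact (E := Module.End R G) (M := G) (X := G)
    ((fun p : Module.End R G × Ideal (Module.End R G) => (toFn p.1, Submodule.map toFn p.2)) '' 𝓐)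
    (hne.image _) (by
      rintro _ ⟨p, hp, rfl⟩ _ ⟨q, hq, rfl⟩
      obtain ⟨r, hr, h1, h2, h3, h4⟩ := hdir p hp q hq
      refine ⟨_, ⟨r, hr, rfl⟩, Submodule.map_mono h1, Submodule.map_mono h2, ?_, ?_⟩
      · exact ⟨_, h3, by simp⟩
      · exact ⟨_, h4, by simp⟩)
  have key : ∀ p ∈ 𝓐, ∀ T : Finset G,
      ∃ b : Module.End R G, b - p.1 ∈ p.2 ∧ ∀ t ∈ T, b t = f t := by
    intro p hp T
    obtain ⟨b, ⟨n, hn, hnb⟩, hbT⟩ := hf _ ⟨p, hp, rfl⟩ T
    refine ⟨n + p.1, by simpa using hn, ?_⟩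
    intro t ht
    rw [← hbT t ht]
    have := congrFun hnb t
    simp only [toFn_apply, Pi.sub_apply] at this
    rw [LinearMap.add_apply, this]
    abel
  obtain ⟨p0, hp0⟩ := hne
  let F : Module.End R G :=
    { toFun := f
      map_add' := by
        intro x y
        obtain ⟨b, -, hb⟩ := key p0 hp0 {x, y, x + y}
        rw [← hb x (by simp), ← hb y (by simp), ← hb (x + y) (by simp), map_add]
      map_smul' := by
        intro r x
        obtain ⟨b, -, hb⟩ := key p0 hp0 {x, r • x}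
        rw [← hb x (by simp), ← hb (r • x) (by simp), map_smul]
        rfl }
  exact ⟨F, key⟩

/-- closed left ideals for the finite topology -/
def Closed (N : Ideal (Module.End R G)) : Prop :=
  ∀ f : Module.End R G, (∀ T : Finset G, ∃ n ∈ N, ∀ t ∈ T, n t = f t) → f ∈ N

/-- right multiplication as a map of left modules -/
def rmul (a : Module.End R G) : Module.End R G →ₗ[Module.End R G] Module.End R G where
  toFun f := f * a
  map_add' _ _ := add_mul _ _ _
  map_smul' _ _ := mul_assoc _ _ _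

@[simp] lemma rmul_apply (a f : Module.End R G) : rmul a f = f * a := rfl

lemma Closed.map [IsArtinian (Module.End R G) G] {N : Ideal (Module.End R G)} (hN : Closed N)
    (a : Module.End R G) : Closed (Submodule.map (rmul a) N) := by
  classical
  intro f hf
  choose n hn hnT using hf
  have hn' : ∀ T : Finset G, ∃ m ∈ N, ∀ t ∈ T, m (a t) = f t := by
    intro T
    obtain ⟨m, hm, hmn⟩ := hn T
    refine ⟨m, hm, fun t ht => ?_⟩
    rw [← hnT T t ht, ← hmn]
    rfl
  choose m hm hmT using hn'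
  let K : Finset G → Ideal (Module.End R G) := fun T =>
    { carrier := {c | c ∈ N ∧ ∀ t ∈ T, c (a t) = 0}
      add_mem' := by
        rintro c d ⟨c1, c2⟩ ⟨d1, d2⟩
        exact ⟨N.add_mem c1 d1, fun t ht => by rw [LinearMap.add_apply, c2 t ht, d2 t ht, add_zero]⟩
      zero_mem' := ⟨N.zero_mem, fun _ _ => rfl⟩
      smul_mem' := by
        rintro e c ⟨c1, c2⟩
        refine ⟨N.smul_mem e c1, fun t ht => ?_⟩
        show e (c (a t)) = 0
        rw [c2 t ht, map_zero] }
  obtain ⟨g, hg⟩ := lin_compact_end (Set.range fun T : Finset G => (m T, K T)) (Set.range_nonempty _)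
    (by
      rintro _ ⟨T, rfl⟩ _ ⟨T', rfl⟩
      refine ⟨_, ⟨T ∪ T', rfl⟩, ?_, ?_, ?_, ?_⟩
      · rintro c ⟨c1, c2⟩
        exact ⟨c1, fun t ht => c2 t (Finset.mem_union_left _ ht)⟩
      · rintro c ⟨c1, c2⟩
        exact ⟨c1, fun t ht => c2 t (Finset.mem_union_right _ ht)⟩
      · refine ⟨N.sub_mem (hm _) (hm _), fun t ht => ?_⟩
        rw [LinearMap.sub_apply, hmT _ t (Finset.mem_union_left _ ht), hmT _ t ht, sub_self]
      · refine ⟨N.sub_mem (hm _) (hm _), fun t ht => ?_⟩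
        rw [LinearMap.sub_apply, hmT _ t (Finset.mem_union_right _ ht), hmT _ t ht, sub_self])
  refine ⟨g, ?_, ?_⟩
  · apply hN
    intro T
    obtain ⟨b, ⟨b1, -⟩, b2⟩ := hg _ ⟨∅, rfl⟩ T
    refine ⟨b, ?_, b2⟩
    have : b = (b - m ∅) + m ∅ := by abel
    rw [this]
    exact N.add_mem b1 (hm _)
  · ext t
    obtain ⟨b, ⟨-, b1⟩, b2⟩ := hg _ ⟨{t}, rfl⟩ {a t}
    have h1 := b1 t (by simp)
    have h2 := b2 (a t) (by simp)
    rw [LinearMap.sub_apply, hmT _ t (by simp), sub_eq_zero] at h1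
    show g (a t) = f t
    rw [← h2, h1]

/-- an endomorphism fixing a nonzero element of an indecomposable endofinite module is left
invertible -/
theorem left_inv_of_fix [IsArtinian (Module.End R G) G]
    (hind : ∀ a : Module.End R G, a * a = a → a = 0 ∨ a = 1) {x : G} (hx : x ≠ 0)
    {e : Module.End R G} (he : e x = x) : ∃ c : Module.End R G, c * e = 1 := by
  classical
  let Good : Set (Set (Module.End R G)) := {A | ∃ (a : Module.End R G) (N : Ideal (Module.End R G)),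
    Closed N ∧ (∀ b, b ∈ A ↔ b - a ∈ N) ∧ (∀ b ∈ A, ∀ c ∈ A, b * c ∈ A) ∧
      ∀ b ∈ A, b x = x ∧ ∃ c, c * e = b}
  have htop : Closed (⊤ : Ideal (Module.End R G)) := fun _ _ => trivial
  have hann : ∀ {N : Ideal (Module.End R G)}, Closed N → ∀ (s : Set G),
      ∃ K : Ideal (Module.End R G), Closed K ∧ ∀ c, c ∈ K ↔ c ∈ N ∧ ∀ t ∈ s, c t = 0 := by
    intro N hN s
    let K : Ideal (Module.End R G) :=
      { carrier := {c | c ∈ N ∧ ∀ t ∈ s, c t = 0}
        add_mem' := by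
          rintro c d ⟨c1, c2⟩ ⟨d1, d2⟩
          exact ⟨N.add_mem c1 d1,
            fun t ht => by rw [LinearMap.add_apply, c2 t ht, d2 t ht, add_zero]⟩
        zero_mem' := ⟨N.zero_mem, fun _ _ => rfl⟩
        smul_mem' := by
          rintro e c ⟨c1, c2⟩
          refine ⟨N.smul_mem e c1, fun t ht => ?_⟩
          show e (c t) = 0
          rw [c2 t ht, map_zero] }
    refine ⟨K, ?_, fun c => Iff.rfl⟩
    intro f hf
    refine ⟨hN f fun T => ?_, fun t ht => ?_⟩
    · obtain ⟨n, n1, n2⟩ := hf T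
      exact ⟨n, n1.1, n2⟩
    · obtain ⟨n, n1, n2⟩ := hf {t}
      rw [← n2 t (by simp)]
      exact n1.2 t ht
  obtain ⟨K0, hK0, hK0'⟩ := hann (htop.map e) {x}
  have h0 : {b | b - e ∈ K0} ∈ Good := by
    have hmem : ∀ b, b - e ∈ K0 ↔ b x = x ∧ ∃ c, c * e = b := by
      intro b
      rw [hK0']
      simp only [Set.mem_singleton_iff, forall_eq, LinearMap.sub_apply, he, sub_eq_zero]
      constructor
      · rintro ⟨⟨c, -, hc⟩, h2⟩
        refine ⟨h2, c + 1, ?_⟩
        rw [rmul_apply] at hc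
        rw [add_mul, hc, one_mul]
        abel
      · rintro ⟨h1, c, rfl⟩
        exact ⟨⟨c - 1, trivial, by rw [rmul_apply, sub_mul, one_mul]⟩, h1⟩
    refine ⟨e, K0, hK0, fun b => Iff.rfl, ?_, fun b hb => (hmem b).1 hb⟩
    intro b hb c hc
    obtain ⟨b1, -⟩ := (hmem b).1 hb
    obtain ⟨c1, d, c2⟩ := (hmem c).1 hc
    refine (hmem _).2 ⟨?_, b * d, by rw [mul_assoc, c2]⟩
    rw [Module.End.mul_apply, c1, b1]
  have hchain : ∀ c ⊆ Good, IsChain (· ⊆ ·) c → c.Nonempty → ∃ lb ∈ Good, ∀ s ∈ c, lb ⊆ s := by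
    intro c hc hch hcne
    have hex : ∀ A : c, ∃ (a : Module.End R G) (N : Ideal (Module.End R G)),
      Closed N ∧ (∀ b, b ∈ A.1 ↔ b - a ∈ N) ∧ (∀ b ∈ A.1, ∀ c ∈ A.1, b * c ∈ A.1) ∧
        ∀ b ∈ A.1, b x = x ∧ ∃ c, c * e = b := fun A => hc A.2
    choose a N hcl hmem hmul hfix using hex
    have hsub : ∀ A B : c, A.1 ⊆ B.1 → N A ≤ N B ∧ a A - a B ∈ N B := by
      intro A B hAB
      have h1 : a A - a B ∈ N B := (hmem B _).1 (hAB ((hmem A _).2 (by simp)))
      refine ⟨fun n hn => ?_, h1⟩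
      have h2 : n + a A - a B ∈ N B := (hmem B _).1 (hAB ((hmem A _).2 (by simpa using hn)))
      have : n = (n + a A - a B) - (a A - a B) := by abel
      rw [this]
      exact (N B).sub_mem h2 h1
    haveI : Nonempty c := hcne.to_subtype
    obtain ⟨f, hf⟩ := lin_compact_end (Set.range fun A : c => (a A, N A)) (Set.range_nonempty _)
      (by
        rintro _ ⟨A, rfl⟩ _ ⟨B, rfl⟩
        rcases hch.total A.2 B.2 with h | h
        · exact ⟨_, ⟨A, rfl⟩, le_rfl, (hsub A B h).1, by simp, (hsub A B h).2⟩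
        · exact ⟨_, ⟨B, rfl⟩, (hsub B A h).1, le_rfl, (hsub B A h).2, by simp⟩)
    have hfA : ∀ A : c, f - a A ∈ N A := by
      intro A
      apply hcl A
      intro T
      obtain ⟨b, b1, b2⟩ := hf _ ⟨A, rfl⟩ T
      exact ⟨b - a A, b1, fun t ht => by rw [LinearMap.sub_apply, LinearMap.sub_apply, b2 t ht]⟩
    have hiff : ∀ b, b - f ∈ (⨅ A : c, N A) ↔ ∀ A : c, b ∈ A.1 := by
      intro b
      rw [Submodule.mem_iInf]
      refine forall_congr' fun A => ?_
      rw [hmem A]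
      constructor
      · intro h
        have : b - a A = (b - f) + (f - a A) := by abel
        rw [this]
        exact (N A).add_mem h (hfA A)
      · intro h
        have : b - f = (b - a A) - (f - a A) := by abel
        rw [this]
        exact (N A).sub_mem h (hfA A)
    refine ⟨{b | ∀ A : c, b ∈ A.1}, ⟨f, ⨅ A : c, N A, ?_, fun b => (hiff b).symm, ?_, ?_⟩,
      fun s hs b hb => hb ⟨s, hs⟩⟩
    · intro g hg
      rw [Submodule.mem_iInf]
      intro A
      apply hcl A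
      intro T
      obtain ⟨n, n1, n2⟩ := hg T
      exact ⟨n, (Submodule.mem_iInf _).1 n1 A, n2⟩
    · intro b hb d hd A
      exact hmul A b (hb A) d (hd A)
    · intro b hb
      obtain ⟨A⟩ := (inferInstance : Nonempty c)
      exact hfix A b (hb A)
  obtain ⟨A, -, hA⟩ := zorn_superset_nonempty Good hchain _ h0
  obtain ⟨a, N, hcl, hmem, hmul, hfix⟩ := hA.prop
  have haA : a ∈ A := (hmem a).2 (by simp)
  -- first reduction
  have h1 : {b | b - a * a ∈ Submodule.map (rmul a) N} ∈ Good ∧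
      {b | b - a * a ∈ Submodule.map (rmul a) N} ⊆ A ∧
      ∀ b, b - a * a ∈ Submodule.map (rmul a) N → ∃ d ∈ A, d * a = b := by
    have hm : ∀ b, b - a * a ∈ Submodule.map (rmul a) N ↔ ∃ d ∈ A, d * a = b := by
      intro b
      constructor
      · rintro ⟨n, n1, n2⟩
        refine ⟨n + a, (hmem _).2 (by simpa using n1), ?_⟩
        rw [rmul_apply] at n2
        rw [add_mul, n2]
        abel
      · rintro ⟨d, d1, rfl⟩
        exact ⟨d - a, (hmem _).1 d1, by rw [rmul_apply, sub_mul]⟩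
    have hs : {b | b - a * a ∈ Submodule.map (rmul a) N} ⊆ A := by
      intro b hb
      obtain ⟨d, d1, rfl⟩ := (hm b).1 hb
      exact hmul d d1 a haA
    refine ⟨⟨a * a, _, hcl.map a, fun b => Iff.rfl, ?_, fun b hb => hfix b (hs hb)⟩, hs,
      fun b hb => (hm b).1 hb⟩
    intro b hb c hc
    obtain ⟨d, d1, rfl⟩ := (hm c).1 hc
    exact (hm _).2 ⟨b * d, hmul b (hs hb) d d1, by rw [mul_assoc]⟩
  have h2 := hA.eq_of_subset h1.1 h1.2.1
  obtain ⟨d, hdA, hda⟩ := h1.2.2 a (by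
    have : a ∈ {b | b - a * a ∈ Submodule.map (rmul a) N} := by rw [h2]; exact haA
    exact this)
  obtain ⟨K, hK, hK'⟩ := hann hcl (Set.range a)
  have hm2 : ∀ b, b - d ∈ K ↔ b ∈ A ∧ b * a = a := by
    intro b
    rw [hK', hmem]
    have hdN := (hmem d).1 hdA
    constructor
    · rintro ⟨b1, b2⟩
      refine ⟨?_, ?_⟩
      · have : b - a = (b - d) + (d - a) := by abel
        rw [this]
        exact N.add_mem b1 hdN
      · ext t
        have h3 := b2 (a t) ⟨t, rfl⟩
        rw [LinearMap.sub_apply, sub_eq_zero] at h3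
        have h4 : d (a t) = a t := by rw [← Module.End.mul_apply, hda]
        rw [Module.End.mul_apply, h3, h4]
    · rintro ⟨b1, b2⟩
      refine ⟨?_, ?_⟩
      · have : b - d = (b - a) - (d - a) := by abel
        rw [this]
        exact N.sub_mem b1 hdN
      · rintro _ ⟨t, rfl⟩
        rw [LinearMap.sub_apply, ← Module.End.mul_apply, ← Module.End.mul_apply, b2, hda, sub_self]
  have h3 : {b | b - d ∈ K} ∈ Good := by
    refine ⟨d, K, hK, fun b => Iff.rfl, ?_, fun b hb => hfix b ((hm2 b).1 hb).1⟩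
    intro b hb c hc
    obtain ⟨b1, b2⟩ := (hm2 b).1 hb
    obtain ⟨c1, c2⟩ := (hm2 c).1 hc
    exact (hm2 _).2 ⟨hmul b b1 c c1, by rw [mul_assoc, c2, b2]⟩
  have h4 := hA.eq_of_subset h3 (fun b hb => ((hm2 b).1 hb).1)
  have h5 : a * a = a := by
    have : a ∈ {b | b - d ∈ K} := by rw [h4]; exact haA
    exact ((hm2 a).1 this).2
  obtain ⟨h6, c, hc⟩ := hfix a haA
  rcases hind a h5 with h7 | h7
  · rw [h7] at h6
    exact absurd h6.symm hx
  · exact ⟨c, by rw [hc, h7]⟩

end Pool.Agent.H170Z.Gen
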