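import Mathlib
import Pool.Agent.H170Z.Gen.LC
import Pool.Agent.H170Z.Gen.Hull

set_option autoImplicit false

namespace Pool.Agent.H170Z.Gen

variable {R G : Type} [Ring R] [AddCommGroup G] [Module R G]

/-- the orbit of a finite tuple under the endomorphism ring is cut out by finitely many
relations -/
theorem orbit_definable [IsArtinian (Module.End R G) G] (Y : Finset G) :
    ∃ S : Finset (G →₀ R), (∀ ρ ∈ S, ρ.sum (fun y r => r • y) = 0) ∧
      ∀ φ : G → G, (∀ ρ ∈ S, ρ.sum (fun y r => r • φ y) = 0) →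
        ∃ e : Module.End R G, ∀ y ∈ Y, e y = φ y := by
  classical
  let N : Finset (G →₀ R) → Submodule (Module.End R G) (G → G) := fun S =>
    { carrier := {φ | ∀ ρ ∈ S, ρ.sum (fun y r => r • φ y) = 0}
      add_mem' := by
        intro φ ψ h1 h2 ρ hρ
        have e1 := h1 ρ hρ
        have e2 := h2 ρ hρ
        simp only [Finsupp.sum, Pi.add_apply, smul_add, Finset.sum_add_distrib] at e1 e2 ⊢
        rw [e1, e2, add_zero]
      zero_mem' := by
        intro ρ _
        simp [Finsupp.sum]
      smul_mem' := by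
        intro e φ h ρ hρ
        have e1 := congrArg e (h ρ hρ)
        simp only [Finsupp.sum, map_sum, map_smul, map_zero] at e1
        exact e1 }
  have hNanti : ∀ S T : Finset (G →₀ R), S ⊆ T → N T ≤ N S :=
    fun S T h φ hφ ρ hρ => hφ ρ (h hρ)
  let π : (G → G) →ₗ[Module.End R G] (Y → G) :=
    { toFun := fun φ y => φ y.1
      map_add' := fun _ _ => rfl
      map_smul' := fun _ _ => rfl }
  let Rel : Set (Finset (G →₀ R)) := {S | ∀ ρ ∈ S, ρ.sum (fun y r => r • y) = 0}
  have hRu : ∀ S ∈ Rel, ∀ T ∈ Rel, S ∪ T ∈ Rel := by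
    intro S hS T hT ρ hρ
    rcases Finset.mem_union.1 hρ with h | h
    · exact hS ρ h
    · exact hT ρ h
  obtain ⟨U, ⟨S0, hS0, rfl⟩, hmin⟩ := IsArtinian.set_has_minimal
    ((fun S => (N S).map π) '' Rel) ⟨_, ∅, fun ρ hρ => absurd hρ (by simp), rfl⟩
  refine ⟨S0, hS0, ?_⟩
  intro φ hφ
  have hex : ∀ S : Rel, ∃ a ∈ N (S.1 ∪ S0), π a = π φ := by
    intro S
    have hle : (N (S.1 ∪ S0)).map π ≤ (N S0).map π :=
      Submodule.map_mono (hNanti _ _ Finset.subset_union_right)
    have heq : (N (S.1 ∪ S0)).map π = (N S0).map π := by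
      by_contra hc
      exact hmin _ ⟨_, hRu _ S.2 _ hS0, rfl⟩ (lt_of_le_of_ne hle hc)
    have : π φ ∈ (N (S.1 ∪ S0)).map π := by
      rw [heq]
      exact ⟨φ, hφ, rfl⟩
    exact this
  choose a ha haπ using hex
  have : Nonempty Rel := ⟨⟨S0, hS0⟩⟩
  obtain ⟨f, hf⟩ := lin_compact (E := Module.End R G) (M := G) (X := G)
    (Set.range fun S : Rel => (a S, N (S.1 ∪ S0) ⊓ LinearMap.ker π)) (Set.range_nonempty _) (by
      rintro _ ⟨S, rfl⟩ _ ⟨T, rfl⟩
      have h1 : N ((S.1 ∪ T.1) ∪ S0) ≤ N (S.1 ∪ S0) :=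
        hNanti _ _ (Finset.union_subset_union_left Finset.subset_union_left)
      have h2 : N ((S.1 ∪ T.1) ∪ S0) ≤ N (T.1 ∪ S0) :=
        hNanti _ _ (Finset.union_subset_union_left Finset.subset_union_right)
      refine ⟨_, ⟨⟨S.1 ∪ T.1, hRu _ S.2 _ T.2⟩, rfl⟩, inf_le_inf_right _ h1,
        inf_le_inf_right _ h2, ⟨?_, ?_⟩, ⟨?_, ?_⟩⟩
      · exact Submodule.sub_mem _ (h1 (ha ⟨S.1 ∪ T.1, hRu _ S.2 _ T.2⟩)) (ha S)
      · show π _ = 0
        rw [map_sub, haπ, haπ, sub_self]
      · exact Submodule.sub_mem _ (h2 (ha ⟨S.1 ∪ T.1, hRu _ S.2 _ T.2⟩)) (ha T)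
      · show π _ = 0
        rw [map_sub, haπ, haπ, sub_self])
  have hrel : ∀ ρ : G →₀ R, ρ.sum (fun y r => r • y) = 0 → ρ.sum (fun y r => r • f y) = 0 := by
    intro ρ hρ
    have hS : ({ρ} : Finset (G →₀ R)) ∈ Rel := by
      intro ρ' h
      rw [Finset.mem_singleton.1 h]
      exact hρ
    obtain ⟨b, ⟨b1, -⟩, b2⟩ := hf _ ⟨⟨{ρ}, hS⟩, rfl⟩ ρ.support
    have b3 : b ∈ N ({ρ} ∪ S0) := by
      have : b = (b - a ⟨{ρ}, hS⟩) + a ⟨{ρ}, hS⟩ := by abel
      rw [this]
      exact Submodule.add_mem _ b1 (ha ⟨{ρ}, hS⟩)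
    rw [← b3 ρ (by simp)]
    exact Finset.sum_congr rfl fun y hy => by simp only [b2 y hy]
  have hlin : ∀ ψ : G → G, ∀ ρ : G →₀ R,
      ρ.sum (fun y r => r • ψ y) = Finsupp.linearCombination R ψ ρ := fun _ _ => rfl
  let F : Module.End R G :=
    { toFun := f
      map_add' := by
        intro x y
        have := hrel (Finsupp.single (x + y) 1 - Finsupp.single x 1 - Finsupp.single y 1) (by
          rw [hlin (fun y => y)]
          simp)
        rw [hlin] at this
        simp only [map_sub, Finsupp.linearCombination_single, one_smul] at this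
        rw [← sub_eq_zero, ← this]
        abel
      map_smul' := by
        intro r x
        have := hrel (Finsupp.single (r • x) 1 - Finsupp.single x r) (by
          rw [hlin (fun y => y)]
          simp)
        rw [hlin] at this
        simp only [map_sub, Finsupp.linearCombination_single, one_smul] at this
        exact sub_eq_zero.1 this }
  refine ⟨F, fun y hy => ?_⟩
  obtain ⟨b, ⟨-, b1⟩, b2⟩ := hf _ ⟨⟨S0, hS0⟩, rfl⟩ Y
  have b3 : π b = π φ := by
    have : π (b - a ⟨S0, hS0⟩) = 0 := b1
    rw [map_sub, sub_eq_zero, haπ] at this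
    exact this
  have := congrFun b3 ⟨y, hy⟩
  show f y = φ y
  rw [← b2 y hy]
  exact this

/-- scalar multiplication as a map of modules over the endomorphism ring -/
def mulR (r : R) : G →ₗ[Module.End R G] G where
  toFun g := r • g
  map_add' := smul_add r
  map_smul' e g := (map_smul e r g).symm

@[simp] lemma mulR_apply (r : R) (g : G) : mulR r g = r • g := rfl

variable {I : Type} [AddCommGroup I] [Module (Module.End R G) I]

/-- additive maps of the dual module compatible with the right action respect all relations -/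
theorem key_rel [IsArtinian (Module.End R G) G] (hI : Module.Injective (Module.End R G) I)
    (Φ : (G →ₗ[Module.End R G] I) →+ (G →ₗ[Module.End R G] I))
    (hΦ : ∀ (r : R) (h : G →ₗ[Module.End R G] I), Φ (h ∘ₗ mulR r) = Φ h ∘ₗ mulR r)
    (η : G →₀ (G →ₗ[Module.End R G] I)) (hη : η.sum (fun y h => h y) = 0) :
    η.sum (fun y h => Φ h y) = 0 := by
  classical
  obtain ⟨S, hS, hSY⟩ := orbit_definable (R := R) η.support
  let A : (G → G) →ₗ[Module.End R G] (S → G) :=
    { toFun := fun φ ρ => ρ.1.sum (fun y r => r • φ y)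
      map_add' := by
        intro φ ψ
        funext ρ
        simp only [Finsupp.sum, Pi.add_apply, smul_add, Finset.sum_add_distrib]
      map_smul' := by
        intro e φ
        funext ρ
        simp only [Finsupp.sum, Pi.smul_apply, Module.End.smul_def, RingHom.id_apply, map_sum,
          map_smul] }
  let H : (G → G) →ₗ[Module.End R G] I :=
    { toFun := fun φ => η.sum (fun y h => h (φ y))
      map_add' := by
        intro φ ψ
        simp only [Finsupp.sum, Pi.add_apply, map_add, Finset.sum_add_distrib]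
      map_smul' := by
        intro e φ
        simp only [Finsupp.sum, Pi.smul_apply, map_smul, RingHom.id_apply, Finset.smul_sum] }
  have hker : LinearMap.ker A ≤ LinearMap.ker H := by
    intro φ hφ
    obtain ⟨e, he⟩ := hSY φ (fun ρ hρ => congrFun (LinearMap.mem_ker.1 hφ) ⟨ρ, hρ⟩)
    show η.sum (fun y h => h (φ y)) = 0
    have h1 : η.sum (fun y h => h (φ y)) = e • η.sum (fun y h => h y) := by
      simp only [Finsupp.sum, Finset.smul_sum]
      refine Finset.sum_congr rfl fun y hy => ?_
      rw [← he y hy, ← map_smul]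
      rfl
    rw [h1, hη, smul_zero]
  obtain ⟨ψ, hψ⟩ := hI.out ((LinearMap.ker A).liftQ A le_rfl) (by
    rw [← LinearMap.ker_eq_bot]
    exact Submodule.ker_liftQ_eq_bot _ _ _ le_rfl) ((LinearMap.ker A).liftQ H hker)
  have hψ' : ∀ φ, ψ (A φ) = H φ := fun φ => hψ ((LinearMap.ker A).mkQ φ)
  let ψ' : S → (G →ₗ[Module.End R G] I) := fun ρ =>
    ψ ∘ₗ LinearMap.single (Module.End R G) (fun _ : S => G) ρ
  have hdec : ∀ y : G, η y = ∑ ρ : S, ψ' ρ ∘ₗ mulR (ρ.1 y) := by
    intro y
    ext z
    have h1 : H (Pi.single y z) = η y z := by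
      show η.sum (fun t h => h ((Pi.single y z : G → G) t)) = η y z
      rw [Finsupp.sum_eq_single y]
      · simp
      · intro t _ ht
        rw [Pi.single_eq_of_ne ht, map_zero]
      · intro _
        rfl
    have h2 : A (Pi.single y z) = ∑ ρ : S, Pi.single ρ (ρ.1 y • z) := by
      funext ρ
      rw [Finset.sum_apply, Finset.sum_eq_single ρ]
      · rw [Pi.single_eq_same]
        show ρ.1.sum (fun t r => r • (Pi.single y z : G → G) t) = _
        rw [Finsupp.sum_eq_single y]
        · simp
        · intro t _ ht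
          rw [Pi.single_eq_of_ne ht, smul_zero]
        · intro _
          rw [zero_smul]
      · intro ρ' _ hne
        rw [Pi.single_eq_of_ne hne.symm]
      · intro h
        exact absurd (Finset.mem_univ _) h
    rw [← h1, ← hψ', h2, map_sum, LinearMap.sum_apply]
    rfl
  let Y : Finset G := η.support ∪ S.biUnion (fun ρ => ρ.support)
  have h1 : η.sum (fun y h => Φ h y) = ∑ y ∈ Y, Φ (η y) y :=
    Finsupp.sum_of_support_subset η Finset.subset_union_left (fun y h => Φ h y)
      (fun _ _ => by rw [map_zero]; rfl)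
  rw [h1]
  have h2 : ∀ y ∈ Y, Φ (η y) y = ∑ ρ : S, Φ (ψ' ρ) (ρ.1 y • y) := by
    intro y _
    rw [hdec y, map_sum, LinearMap.sum_apply]
    refine Finset.sum_congr rfl fun ρ _ => ?_
    rw [hΦ]
    rfl
  rw [Finset.sum_congr rfl h2, Finset.sum_comm]
  refine Finset.sum_eq_zero fun ρ _ => ?_
  rw [← map_sum]
  have h3 : ∑ y ∈ Y, ρ.1 y • y = ρ.1.sum (fun y r => r • y) := by
    refine (Finsupp.sum_of_support_subset ρ.1 ?_ (fun y r => r • y)
      (fun _ _ => zero_smul _ _)).symm
    intro t ht
    exact Finset.mem_union_right _ (Finset.mem_biUnion.2 ⟨ρ.1, ρ.2, ht⟩)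
  rw [h3, hS ρ.1 ρ.2, map_zero]

/-- every endomorphism of the dual module is induced by an endomorphism of the injective module -/
theorem end_induced [IsArtinian (Module.End R G) G] (hI : Module.Injective (Module.End R G) I)
    (Φ : (G →ₗ[Module.End R G] I) →+ (G →ₗ[Module.End R G] I))
    (hΦ : ∀ (r : R) (h : G →ₗ[Module.End R G] I), Φ (h ∘ₗ mulR r) = Φ h ∘ₗ mulR r) :
    ∃ f : I →ₗ[Module.End R G] I, ∀ (h : G →ₗ[Module.End R G] I) (g : G), Φ h g = f (h g) := by
  classical
  let Γ : Submodule (Module.End R G) (I × I) :=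
    { carrier := {p | ∃ η : G →₀ (G →ₗ[Module.End R G] I),
        p = (η.sum (fun y h => h y), η.sum (fun y h => Φ h y))}
      add_mem' := by
        rintro _ _ ⟨η, rfl⟩ ⟨η', rfl⟩
        refine ⟨η + η', ?_⟩
        rw [Finsupp.sum_add_index' (fun _ => rfl) (fun _ _ _ => rfl),
          Finsupp.sum_add_index' (fun _ => by rw [map_zero]; rfl)
            (fun _ _ _ => by rw [map_add]; rfl)]
        rfl
      zero_mem' := ⟨0, rfl⟩
      smul_mem' := by
        rintro e _ ⟨η, rfl⟩
        refine ⟨η.mapDomain e, ?_⟩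
        rw [Finsupp.sum_mapDomain_index (fun _ => rfl) (fun _ _ _ => rfl),
          Finsupp.sum_mapDomain_index (fun _ => by rw [map_zero]; rfl)
            (fun _ _ _ => by rw [map_add]; rfl)]
        simp only [Finsupp.sum, Prod.smul_mk, Finset.smul_sum, ← map_smul, Module.End.smul_def] }
  have hinj : Function.Injective (LinearMap.fst (Module.End R G) I I ∘ₗ Γ.subtype) := by
    rw [← LinearMap.ker_eq_bot, Submodule.eq_bot_iff]
    rintro ⟨_, η, rfl⟩ hp
    have h1 : η.sum (fun y h => h y) = 0 := hp
    have h2 := key_rel hI Φ hΦ η h1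
    exact Subtype.ext (Prod.ext h1 h2)
  obtain ⟨f, hf⟩ := hI.out _ hinj (LinearMap.snd (Module.End R G) I I ∘ₗ Γ.subtype)
  refine ⟨f, fun h g => ?_⟩
  have hmem : (h g, Φ h g) ∈ Γ := by
    refine ⟨Finsupp.single g h, ?_⟩
    rw [Finsupp.sum_single_index rfl, Finsupp.sum_single_index (by rw [map_zero]; rfl)]
  exact (hf ⟨_, hmem⟩).symm

/-- the dual module as a type -/
abbrev Dual (R G I : Type) [Ring R] [AddCommGroup G] [Module R G] [AddCommGroup I]
    [Module (Module.End R G) I] : Type := G →ₗ[Module.End R G] I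

/-- the module structure of the dual over a ring anti-isomorphic to `R` -/
@[reducible] def dualModule {R' : Type} [Ring R'] (σ : R' ≃+* Rᵐᵒᵖ) : Module R' (Dual R G I) where
  smul r h := (h : G →ₗ[Module.End R G] I) ∘ₗ mulR (σ r).unop
  one_smul h := by
    refine LinearMap.ext fun g => ?_
    show (h : G →ₗ[Module.End R G] I) ((σ 1).unop • g) = _
    rw [map_one, MulOpposite.unop_one, one_smul]
  mul_smul r r' h := by
    refine LinearMap.ext fun g => ?_
    show (h : G →ₗ[Module.End R G] I) ((σ (r * r')).unop • g) =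
      (h : G →ₗ[Module.End R G] I) ((σ r').unop • (σ r).unop • g)
    rw [map_mul, MulOpposite.unop_mul, mul_smul]
  smul_zero _ := rfl
  smul_add _ _ _ := rfl
  add_smul r r' h := by
    refine LinearMap.ext fun g => ?_
    show (h : G →ₗ[Module.End R G] I) ((σ (r + r')).unop • g) =
      (h : G →ₗ[Module.End R G] I) ((σ r).unop • g) + (h : G →ₗ[Module.End R G] I) ((σ r').unop • g)
    rw [map_add, MulOpposite.unop_add, add_smul, map_add]
  zero_smul h := by
    refine LinearMap.ext fun g => ?_
    show (h : G →ₗ[Module.End R G] I) ((σ 0).unop • g) = 0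
    rw [map_zero, MulOpposite.unop_zero, zero_smul, map_zero]

theorem transfer (k : Type) [CommRing k] [IsNoetherianRing k] (R R' : Type) [Ring R] [Ring R']
    [Algebra k R'] [Module.Finite k R'] (σ : R' ≃+* Rᵐᵒᵖ)
    (G : Type) [AddCommGroup G] [Module R G] (hnt : Nontrivial G)
    (hind : ∀ N₁ N₂ : Submodule R G, IsCompl N₁ N₂ → N₁ = ⊥ ∨ N₂ = ⊥)
    (hfl : IsFiniteLength (Module.End R G) G)
    (hnf : ¬ Module.Finite
      (Subring.center (Module.End R G ⧸ Ring.jacobson (Module.End R G)))
      (Module.End R G ⧸ Ring.jacobson (Module.End R G))) :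
    ∃ (M : Type) (_ : AddCommGroup M) (_ : Module R' M),
      Nontrivial M ∧
      (∀ N₁ N₂ : Submodule R' M, IsCompl N₁ N₂ → N₁ = ⊥ ∨ N₂ = ⊥) ∧
      IsFiniteLength (Module.End R' M) M ∧
      ¬ Module.Finite R' M ∧
      ¬ Module.Finite
          (Subring.center (Module.End R' M ⧸ Ring.jacobson (Module.End R' M)))
          (Module.End R' M ⧸ Ring.jacobson (Module.End R' M)) := by
  classical
  have hart : IsArtinian (Module.End R G) G :=
    (isFiniteLength_iff_isNoetherian_isArtinian.1 hfl).2
  have hidem : ∀ a : Module.End R G, a * a = a → a = 0 ∨ a = 1 := by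
    intro a ha
    have ha' : IsIdempotentElem a := ha
    rcases hind _ _ (LinearMap.IsIdempotentElem.isCompl ha') with h | h
    · exact Or.inl (LinearMap.range_eq_bot.1 h)
    · right
      ext g
      have h1 : a g - g ∈ LinearMap.ker a := by
        rw [LinearMap.mem_ker, map_sub, ← Module.End.mul_apply, ha, sub_self]
      rw [h, Submodule.mem_bot, sub_eq_zero] at h1
      exact h1
  -- an element generating a simple module over the endomorphism ring
  obtain ⟨x, hx, hsx⟩ : ∃ x : G, x ≠ 0 ∧
      ∀ e : Module.End R G, e • x ≠ 0 → ∃ c : Module.End R G, c • e • x = x := by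
    obtain ⟨U, hU, hmin⟩ := IsArtinian.set_has_minimal
      {U : Submodule (Module.End R G) G | U ≠ ⊥} ⟨⊤, top_ne_bot⟩
    obtain ⟨x, hxU, hx⟩ := Submodule.exists_mem_ne_zero_of_ne_bot hU
    refine ⟨x, hx, fun e he => ?_⟩
    have hle : Submodule.span (Module.End R G) {e • x} ≤ U :=
      (Submodule.span_singleton_le_iff_mem _ _).2 (U.smul_mem e hxU)
    have heq : Submodule.span (Module.End R G) {e • x} = U := by
      by_contra hc
      exact hmin _ (fun h => he (Submodule.span_singleton_eq_bot.1 h)) (lt_of_le_of_ne hle hc)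
    rw [← heq] at hxU
    exact Submodule.mem_span_singleton.1 hxU
  have hunit : ∀ e : Module.End R G, e x ≠ 0 → ∃ u, u * e = 1 ∧ e * u = 1 := by
    intro e he
    obtain ⟨c, hc⟩ := hsx e he
    obtain ⟨d, hd⟩ := left_inv_of_fix hidem hx (e := c * e) hc
    have h1 : d * c * e = 1 := by rw [mul_assoc, hd]
    refine ⟨d * c, h1, ?_⟩
    rcases hidem (e * (d * c)) (by
      rw [mul_assoc, ← mul_assoc (d * c) e, h1, one_mul]) with h | h
    · exfalso
      apply he
      have : e = e * (d * c) * e := by rw [mul_assoc, h1, mul_one]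
      rw [this, h, zero_mul]
      rfl
    · exact h
  have htwo : ∀ e d : Module.End R G, e x = 0 → e (d x) = 0 := by
    intro e d he
    by_contra hc
    obtain ⟨u, -, hu⟩ := hunit (e * d) hc
    have h1 : e * (d * u) = 1 := by rw [← mul_assoc, hu]
    rcases hidem (d * u * e) (by
      rw [mul_assoc (d * u) e, ← mul_assoc e, h1, one_mul]) with h | h
    · have h2 : e * (d * u * e) * (d * u) = 1 := by
        rw [← mul_assoc e, h1, one_mul, h1]
      rw [h, mul_zero, zero_mul] at h2
      exact hx (by simpa using (LinearMap.congr_fun h2 x).symm)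
    · have h2 := LinearMap.congr_fun h x
      rw [Module.End.mul_apply, he, map_zero] at h2
      exact hx h2.symm
  have hjac : ∀ e : Module.End R G, e ∈ Ring.jacobson (Module.End R G) ↔ e x = 0 := by
    intro e
    constructor
    · intro he
      by_contra hc
      obtain ⟨u, hu, -⟩ := hunit e hc
      have h1 : (1 : Module.End R G) ∈ Ring.jacobson (Module.End R G) := by
        rw [← hu]
        exact Ideal.mul_mem_left _ u he
      exact (Ring.jacobson_lt_top (Module.End R G)).ne ((Ideal.eq_top_iff_one _).2 h1)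
    · intro he
      rw [Ring.jacobson_eq_sInf_isMaximal, Submodule.mem_sInf]
      intro m hm
      have hm' : Ideal.IsMaximal m := hm
      by_contra hc
      obtain ⟨y, i, hi, hyi⟩ := hm'.exists_inv hc
      have h1 : i x ≠ 0 := by
        have h2 := LinearMap.congr_fun hyi x
        rw [LinearMap.add_apply, Module.End.mul_apply, he, map_zero, zero_add] at h2
        rw [h2]
        exact hx
      obtain ⟨u, hu, -⟩ := hunit i h1
      exact hm'.ne_top ((Ideal.eq_top_iff_one _).2 (hu ▸ Ideal.mul_mem_left _ u hi))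
  obtain ⟨I, _, _, hI, s, h0, hh0, hess, hann⟩ := exists_hull hx hsx
  have hann' : ∀ e : Module.End R G, e • s = 0 ↔ e x = 0 := hann
  have hs0 : s ≠ 0 := fun h => hx ((hann' 1).1 (by rw [h, smul_zero]))
  letI : Module R' (Dual R G I) := dualModule σ
  have hind' : ∀ α : Module.End R' (Dual R G I), ∃ f : I →ₗ[Module.End R G] I,
      ∀ (h : G →ₗ[Module.End R G] I) (g : G),
        (α (h : Dual R G I) : G →ₗ[Module.End R G] I) g = f (h g) := by
    intro α
    refine end_induced hI α.toAddMonoidHom ?_
    intro r h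
    have := α.map_smul (σ.symm (MulOpposite.op r)) (h : Dual R G I)
    have e1 : ∀ h' : G →ₗ[Module.End R G] I,
        (σ.symm (MulOpposite.op r)) • (h' : Dual R G I) = h' ∘ₗ mulR r := by
      intro h'
      show h' ∘ₗ mulR (σ (σ.symm (MulOpposite.op r))).unop = _
      rw [RingEquiv.apply_symm_apply, MulOpposite.unop_op]
    rw [e1, e1] at this
    exact this
  let θ : Module.End (Module.End R G) I → Module.End R' (Dual R G I) := fun f =>
    { toFun := fun h => (f ∘ₗ (h : G →ₗ[Module.End R G] I) : G →ₗ[Module.End R G] I)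
      map_add' := fun h h' => LinearMap.comp_add _ _ _
      map_smul' := fun _ _ => rfl }
  -- endomorphisms of the injective module
  have hfs : ∀ f : I →ₗ[Module.End R G] I, ∃ d : Module.End R G, f s = d • s := by
    intro f
    by_cases hf : f s = 0
    · exact ⟨0, by rw [hf, zero_smul]⟩
    · obtain ⟨e, he⟩ := hess _ hf
      have h1 : e x ≠ 0 := by
        intro h
        apply hs0
        rw [← he, ← map_smul, (hann' e).2 h, map_zero]
      obtain ⟨u, hu, -⟩ := hunit e h1
      exact ⟨u, by rw [← he, ← mul_smul, hu, one_smul, he]⟩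
  have hfinj : ∀ f : I →ₗ[Module.End R G] I, f s ≠ 0 → Function.Injective f := by
    intro f hf
    rw [← LinearMap.ker_eq_bot, Submodule.eq_bot_iff]
    intro y hy
    by_contra hy0
    obtain ⟨e, he⟩ := hess y hy0
    apply hf
    rw [← he, map_smul, LinearMap.mem_ker.1 hy, smul_zero]
  have hfunit : ∀ f : I →ₗ[Module.End R G] I, f s ≠ 0 →
      ∃ g : I →ₗ[Module.End R G] I, ∀ y, g (f y) = y := by
    intro f hf
    exact hI.out f (hfinj f hf) LinearMap.id
  -- the residue map
  have hτex : ∀ α : Module.End R' (Dual R G I), ∃ d : Module.End R G,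
      (α (h0 : Dual R G I) : G →ₗ[Module.End R G] I) x = d • s := by
    intro α
    obtain ⟨f, hf⟩ := hind' α
    obtain ⟨d, hd⟩ := hfs f
    exact ⟨d, by rw [hf, hh0, hd]⟩
  choose τ hτ using hτex
  have hmk : ∀ d d' : Module.End R G, d • s = d' • s →
      Ideal.Quotient.mk (Ring.jacobson (Module.End R G)) d =
        Ideal.Quotient.mk (Ring.jacobson (Module.End R G)) d' := by
    intro d d' h
    rw [Ideal.Quotient.eq, hjac, ← hann', sub_smul, h, sub_self]
  have hleft : ∀ α : Module.End R' (Dual R G I), τ α • s ≠ 0 → ∃ β, β * α = 1 := by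
    intro α hα
    obtain ⟨f, hf⟩ := hind' α
    obtain ⟨g, hg⟩ := hfunit f (by rw [← hh0, ← hf, hτ]; exact hα)
    refine ⟨θ g, LinearMap.ext fun h => LinearMap.ext fun z => ?_⟩
    show g ((α h : G →ₗ[Module.End R G] I) z) = (h : G →ₗ[Module.End R G] I) z
    rw [hf, hg]
  let T : Module.End R' (Dual R G I) →+*
      (Module.End R G ⧸ Ring.jacobson (Module.End R G))ᵐᵒᵖ :=
    { toFun := fun α => MulOpposite.op (Ideal.Quotient.mk _ (τ α))
      map_one' := by
        rw [hmk (τ 1) 1 (by rw [← hτ, one_smul, ← hh0]; rfl), map_one, MulOpposite.op_one]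
      map_mul' := by
        intro α β
        rw [← MulOpposite.op_mul, ← map_mul]
        congr 1
        apply hmk
        obtain ⟨f, hf⟩ := hind' α
        rw [← hτ, Module.End.mul_apply, hf, hτ, map_smul, mul_smul, ← hτ α, hf, hh0]
      map_zero' := by
        rw [hmk (τ 0) 0 (by rw [← hτ, zero_smul]; rfl), map_zero, MulOpposite.op_zero]
      map_add' := by
        intro α β
        rw [← MulOpposite.op_add, ← map_add]
        congr 1
        apply hmk
        rw [← hτ, add_smul, ← hτ, ← hτ]
        rfl }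
  have hTsurj : Function.Surjective T := by
    intro c
    obtain ⟨d, hd⟩ := Ideal.Quotient.mk_surjective c.unop
    have hker : LinearMap.ker (LinearMap.toSpanSingleton (Module.End R G) I s) ≤
        LinearMap.ker (LinearMap.toSpanSingleton (Module.End R G) I (d • s)) := by
      intro e he
      rw [LinearMap.mem_ker, LinearMap.toSpanSingleton_apply] at he ⊢
      rw [← mul_smul, hann']
      exact htwo e d ((hann' e).1 he)
    obtain ⟨f, hf⟩ := hI.out ((LinearMap.ker (LinearMap.toSpanSingleton (Module.End R G) I s)).liftQ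
      (LinearMap.toSpanSingleton (Module.End R G) I s) le_rfl) (by
        rw [← LinearMap.ker_eq_bot]
        exact Submodule.ker_liftQ_eq_bot _ _ _ le_rfl) (Submodule.liftQ _ _ hker)
    have h1 : f s = d • s := by
      have := hf (Submodule.mkQ _ 1)
      simpa using this
    refine ⟨θ f, ?_⟩
    show MulOpposite.op (Ideal.Quotient.mk _ (τ (θ f))) = c
    rw [hmk (τ (θ f)) d (by rw [← hτ, ← h1, ← hh0]; rfl), hd, MulOpposite.op_unop]
  have hh00 : (h0 : Dual R G I) ≠ 0 := by
    intro h
    apply hs0
    rw [← hh0]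
    exact LinearMap.congr_fun h x
  have hntM : Nontrivial (Dual R G I) := ⟨⟨h0, 0, hh00⟩⟩
  have hnf' : ¬ Module.Finite
      (Subring.center (Module.End R' (Dual R G I) ⧸ Ring.jacobson (Module.End R' (Dual R G I))))
      (Module.End R' (Dual R G I) ⧸ Ring.jacobson (Module.End R' (Dual R G I))) := by
    intro hfin
    apply hnf
    have hz : ∀ α ∈ Ring.jacobson (Module.End R' (Dual R G I)), T α = 0 := by
      intro α hα
      by_cases h : τ α • s = 0
      · show MulOpposite.op (Ideal.Quotient.mk _ (τ α)) = 0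
        rw [hmk (τ α) 0 (by rw [h, zero_smul]), map_zero, MulOpposite.op_zero]
      · obtain ⟨β, hβ⟩ := hleft α h
        have h1 : (1 : Module.End R' (Dual R G I)) ∈ Ring.jacobson (Module.End R' (Dual R G I)) := by
          rw [← hβ]
          exact Ideal.mul_mem_left _ β hα
        exact absurd ((Ideal.eq_top_iff_one _).2 h1)
          (Ring.jacobson_lt_top (Module.End R' (Dual R G I))).ne
    refine fin_centre_of_op (fin_centre_of_surj (Ideal.Quotient.lift _ T hz) ?_ hfin)
    intro c
    obtain ⟨α, hα⟩ := hTsurj c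
    exact ⟨Ideal.Quotient.mk _ α, hα⟩
  refine ⟨Dual R G I, inferInstance, inferInstance, hntM, ?_, ?_, ?_, hnf'⟩
  · intro N₁ N₂ hc
    have hp := Submodule.isIdempotentElem_projection hc
    by_cases h : τ (N₁.projection N₂ hc) • s = 0
    · left
      have h1 : τ (1 - N₁.projection N₂ hc) • s ≠ 0 := by
        rw [← hτ]
        have : ((1 - N₁.projection N₂ hc : Module.End R' (Dual R G I)) (h0 : Dual R G I) :
            G →ₗ[Module.End R G] I) x = h0 x -
            ((N₁.projection N₂ hc : Module.End R' (Dual R G I)) (h0 : Dual R G I) :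
              G →ₗ[Module.End R G] I) x := rfl
        rw [this, hτ, h, sub_zero, hh0]
        exact hs0
      obtain ⟨β, hβ⟩ := hleft _ h1
      have h2 : (N₁.projection N₂ hc : Module.End R' (Dual R G I)) = 0 := by
        have h3 : (1 - N₁.projection N₂ hc : Module.End R' (Dual R G I)) *
            N₁.projection N₂ hc = 0 := by
          rw [sub_mul, one_mul, hp.eq, sub_self]
        rw [← one_mul (N₁.projection N₂ hc : Module.End R' (Dual R G I)), ← hβ, mul_assoc, h3,
          mul_zero]
      rw [← Submodule.range_projection hc, h2, LinearMap.range_zero]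
    · right
      obtain ⟨β, hβ⟩ := hleft _ h
      rw [Submodule.eq_bot_iff]
      intro y hy
      have h2 := LinearMap.congr_fun hβ y
      rw [Module.End.mul_apply, (Submodule.projection_apply_eq_zero_iff hc).2 hy, map_zero] at h2
      exact h2.symm
  · obtain ⟨h1, h2⟩ := dual_finite_length hI hfl
    let res : Submodule (Module.End R' (Dual R G I)) (Dual R G I) →
        Submodule (Module.End (Module.End R G) I) (G →ₗ[Module.End R G] I) := fun U =>
      { carrier := {h | (h : Dual R G I) ∈ U}
        add_mem' := fun ha hb => U.add_mem ha hb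
        zero_mem' := U.zero_mem
        smul_mem' := fun f _ hh => U.smul_mem (θ f) hh }
    have hmono : StrictMono res := by
      intro U V hUV
      rw [SetLike.lt_iff_le_and_exists] at hUV ⊢
      exact ⟨fun h hh => hUV.1 hh, hUV.2⟩
    rw [isFiniteLength_iff_isNoetherian_isArtinian]
    exact ⟨isNoetherian_mk hmono.wellFoundedGT, hmono.wellFoundedLT⟩
  · intro hfin
    apply hnf'
    exact fin_centre_of_surj (Ideal.Quotient.mk _) Ideal.Quotient.mk_surjective
      (fin_centre_end k R' (Dual R G I))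

end Pool.Agent.H170Z.Gen
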